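import Pool.Agent.Lib.MP_688fd0_co.LIN.Iface

/-! ENUM: the vertices of a cycle in cyclic order. -/

set_option autoImplicit false

namespace Pool.Agent.Lib.MP_688fd0_co.LIN.H43

open Classical
open Pool.Agent.Lib.MP_688fd0_co.LP (IsP Conn Cyc Symm cay)
open Pool.Agent.Lib.MP_688fd0_co.LIN

universe u

lemma isCycles_of_CF {V : Type u} [Fintype V] {G H : SimpleGraph V} (h : CF G H) : H.IsCycles := by
  intro v hv
  have e : (H.neighborSet v).ncard = dg H v := by
    rw [dg, ← Set.ncard_coe_finset]
    congr 1
    ext w
    simp [SimpleGraph.mem_neighborSet]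
  rcases h.deg v with h0 | h2
  · exfalso
    obtain ⟨w, hw⟩ := hv
    rw [dg, Finset.card_eq_zero] at h0
    have : w ∈ (Finset.univ.filter (fun w => H.Adj v w)) := by simpa using hw
    rw [h0] at this
    simp at this
  · rw [e, h2]

theorem enum : EnumStatement.{u} := by
  intro V _ G H hH v hv
  have hcyc := isCycles_of_CF hH
  have hv' : ∃ w, H.Adj v w := by simpa [cov] using hv
  have hmem : v ∈ (H.connectedComponentMk v).supp := rfl
  obtain ⟨p, hp, hverts⟩ := hcyc.exists_cycle_toSubgraph_verts_eq_connectedComponentSupp hmem
    (by obtain ⟨w, hw⟩ := hv'; exact ⟨w, hw⟩)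
  have hset : ∀ w, w ∈ p.support ↔ H.Reachable v w := by
    intro w
    rw [← SimpleGraph.Walk.mem_verts_toSubgraph, hverts]
    simp only [SimpleGraph.ConnectedComponent.mem_supp_iff, SimpleGraph.ConnectedComponent.eq]
    exact ⟨fun h => h.symm, fun h => h.symm⟩
  have h3 : 3 ≤ p.length := hp.three_le_length
  refine ⟨p.support.tail, ⟨⟨?_, ?_, ?_⟩, ?_, ?_⟩, ?_⟩
  · intro hnil
    have := p.length_support
    have h4 : p.support.tail.length = p.support.length - 1 := List.length_tail
    rw [hnil] at h4
    simp at h4
    omega
  · have := p.isChain_adj_support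
    exact this.tail
  · exact hp.support_nodup
  · have := p.length_support
    have h4 : p.support.tail.length = p.support.length - 1 := List.length_tail
    omega
  · cases p with
    | nil => simp at h3
    | cons h q =>
      rename_i x
      refine ⟨x, v, ?_, ?_, h⟩
      · rw [SimpleGraph.Walk.support_cons, List.tail_cons]
        rw [← SimpleGraph.Walk.cons_tail_support q]
        rfl
      · rw [SimpleGraph.Walk.support_cons, List.tail_cons]
        rw [List.getLast?_eq_getLast_of_ne_nil (SimpleGraph.Walk.support_ne_nil q), SimpleGraph.Walk.getLast_support]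
  · intro w
    rw [← hset w]
    cases p with
    | nil => simp at h3
    | cons h q =>
      rw [SimpleGraph.Walk.support_cons, List.tail_cons]
      constructor
      · intro hw; exact List.mem_cons_of_mem _ hw
      · intro hw
        rcases List.mem_cons.1 hw with rfl | hw
        · exact SimpleGraph.Walk.end_mem_support q
        · exact hw

end Pool.Agent.Lib.MP_688fd0_co.LIN.H43
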