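import Pool.Agent.Lib.MP_688fd0_co.LIN.H43.Mass

/-! WINDOWS: cutting the cycles into lists of length at most `w`. -/

set_option autoImplicit false

namespace Pool.Agent.Lib.MP_688fd0_co.LIN.H43

open Classical
open Pool.Agent.Lib.MP_688fd0_co.LP (IsP Conn Cyc Symm cay)
open Pool.Agent.Lib.MP_688fd0_co.LIN

universe u

lemma exists_chunks {V : Type u} (w : ℕ) (hw : 1 ≤ w) : ∀ (n : ℕ) (l : List V), l.length ≤ n →
    ∃ C : List (List V), C.flatten = l ∧ (∀ c ∈ C, c ≠ [] ∧ c.length ≤ w) ∧ w * C.length < l.length + w := by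
  intro n
  induction n with
  | zero =>
    intro l hl
    have : l = [] := List.length_eq_zero_iff.1 (Nat.le_zero.1 hl)
    subst this
    exact ⟨[], rfl, by simp, by simp; omega⟩
  | succ n ih =>
    intro l hl
    by_cases hnil : l = []
    · subst hnil
      exact ⟨[], rfl, by simp, by simp; omega⟩
    · have hpos : 0 < l.length := List.length_pos_iff.2 hnil
      have hdl : (l.drop w).length = l.length - w := List.length_drop
      obtain ⟨C, hC1, hC2, hC3⟩ := ih (l.drop w) (by omega)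
      refine ⟨l.take w :: C, ?_, ?_, ?_⟩
      · rw [List.flatten_cons, hC1, List.take_append_drop]
      · intro c hc
        rcases List.mem_cons.1 hc with rfl | hc
        · refine ⟨?_, ?_⟩
          · intro h
            rw [List.take_eq_nil_iff] at h
            rcases h with h | h
            · omega
            · exact hnil h
          · rw [List.length_take]; exact min_le_left _ _
        · exact hC2 c hc
      · rw [List.length_cons, mul_add, mul_one]
        rw [hdl] at hC3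
        by_cases hlw : w ≤ l.length
        · omega
        · have h0 : l.length - w = 0 := by omega
          rw [h0, zero_add] at hC3
          have : C.length = 0 := by
            by_contra hne
            have : 1 ≤ C.length := by omega
            have : w * 1 ≤ w * C.length := Nat.mul_le_mul_left _ this
            omega
          rw [this]
          omega

theorem chain_sub {α : Type*} {R : α → α → Prop} {l c : List α} (h : c.IsChain R)
    (hc : l <:+: c) : l.IsChain R := by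
  obtain ⟨s, t, rfl⟩ := hc
  exact (List.isChain_append.1 (List.isChain_append.1 h).1).2.1

lemma cut_cycle {V : Type u} [Fintype V] {H : SimpleGraph V} (S : Finset V) (c : List V) (hc : IsP H c)
    (hS : ∀ x, x ∈ c ↔ x ∈ S) (w : ℕ) (hw : 1 ≤ w) (hwS : w ≤ S.card) :
    ∃ C : Finset (List V), (∀ l ∈ C, l ≠ [] ∧ l.Nodup ∧ l.IsChain H.Adj ∧ l.length ≤ w ∧ ∀ v ∈ l, v ∈ S) ∧
      PD C ∧ (∀ v ∈ S, ∃ l ∈ C, v ∈ l) ∧ w * C.card ≤ 2 * S.card := by
  obtain ⟨C, hC1, hC2, hC3⟩ := exists_chunks w hw c.length c le_rfl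
  obtain ⟨-, hchain, hnod⟩ := hc
  have hlen : c.length = S.card := by
    rw [← List.toFinset_card_of_nodup hnod]
    congr 1
    ext x
    rw [List.mem_toFinset, hS]
  have hinf : ∀ l ∈ C, l <:+: c := by
    intro l hl
    rw [← hC1]
    obtain ⟨s, t, rfl⟩ := List.append_of_mem hl
    exact ⟨s.flatten, t.flatten, by simp⟩
  have hnod' : C.flatten.Nodup := by rw [hC1]; exact hnod
  rw [List.nodup_flatten] at hnod'
  refine ⟨C.toFinset, ?_, ?_, ?_, ?_⟩
  · intro l hl
    have hl' := List.mem_toFinset.1 hl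
    refine ⟨(hC2 l hl').1, hnod'.1 l hl', chain_sub hchain (hinf l hl'), (hC2 l hl').2, ?_⟩
    intro v hv
    exact (hS v).1 ((hinf l hl').subset hv)
  · intro l hl l' hl' hne
    have h1 := List.mem_toFinset.1 hl
    have h2 := List.mem_toFinset.1 hl'
    haveI : Std.Symm (List.Disjoint (α := V)) := ⟨fun _ _ h => h.symm⟩
    exact hnod'.2.forall h1 h2 hne
  · intro v hv
    have : v ∈ C.flatten := by rw [hC1]; exact (hS v).2 hv
    obtain ⟨l, hl, hvl⟩ := List.mem_flatten.1 this
    exact ⟨l, List.mem_toFinset.2 hl, hvl⟩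
  · have h1 : C.toFinset.card ≤ C.length := List.toFinset_card_le C
    have h2 := Nat.mul_le_mul_left w h1
    omega

theorem windows (henum : EnumStatement.{u}) : WindowsStatement.{u} := by
  intro V _ G H hH w hw hbig
  have key : ∀ S : Finset V, ∃ C : Finset (List V), S ∈ cycs H →
      (∀ l ∈ C, l ≠ [] ∧ l.Nodup ∧ l.IsChain H.Adj ∧ l.length ≤ w ∧ ∀ v ∈ l, v ∈ S) ∧
      PD C ∧ (∀ v ∈ S, ∃ l ∈ C, v ∈ l) ∧ w * C.card ≤ 2 * S.card := by
    intro S
    by_cases hS : S ∈ cycs H
    · obtain ⟨v, hv, rfl⟩ := mem_cycs.1 hS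
      obtain ⟨c, hc1, hc2⟩ := henum V G H hH v hv
      obtain ⟨C, hC⟩ := cut_cycle (cyc H v) c hc1.1 (fun x => by rw [hc2, mem_cyc]) w hw (hbig v hv)
      exact ⟨C, fun _ => hC⟩
    · exact ⟨∅, fun h => absurd h hS⟩
  choose C hC using key
  have hmem : ∀ l, l ∈ (cycs H).biUnion C ↔ ∃ S ∈ cycs H, l ∈ C S := by intro l; simp
  refine ⟨(cycs H).biUnion C, ?_, ?_, ?_, ?_, ?_⟩
  · intro l hl
    obtain ⟨S, hS, hl⟩ := (hmem l).1 hl
    obtain ⟨h1, h2, h3, h4, h5⟩ := (hC S hS).1 l hl
    exact ⟨h1, h2, h3, h4, fun v hv => (eq_cyc_of_mem hS (h5 v hv)).2⟩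
  · intro l hl l' hl' hne
    obtain ⟨S, hS, hl⟩ := (hmem l).1 hl
    obtain ⟨S', hS', hl'⟩ := (hmem l').1 hl'
    by_cases e : S = S'
    · subst e
      exact (hC S hS).2.1 l hl l' hl' hne
    · intro x hx hx'
      apply e
      rw [(eq_cyc_of_mem hS (((hC S hS).1 l hl).2.2.2.2 x hx)).1,
        (eq_cyc_of_mem hS' (((hC S' hS').1 l' hl').2.2.2.2 x hx')).1]
  · intro v hv
    obtain ⟨l, hl, hvl⟩ := (hC _ (cyc_mem_cycs hv)).2.2.1 v (self_mem_cyc v)
    exact ⟨l, (hmem l).2 ⟨_, cyc_mem_cycs hv, hl⟩, hvl⟩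
  · intro v hv
    have hsub : ((cycs H).biUnion C).filter (fun l => ∀ x ∈ l, H.Reachable v x) ⊆ C (cyc H v) := by
      intro l hl
      obtain ⟨hl, hr⟩ := Finset.mem_filter.1 hl
      obtain ⟨S, hS, hl⟩ := (hmem l).1 hl
      obtain ⟨h1, -, -, -, h5⟩ := (hC S hS).1 l hl
      obtain ⟨x, hx⟩ := List.exists_mem_of_ne_nil l h1
      have e : S = cyc H v := by
        rw [(eq_cyc_of_mem hS (h5 x hx)).1, cyc_eq (hr x hx)]
      rw [← e]; exact hl
    calc w * _ ≤ w * (C (cyc H v)).card := Nat.mul_le_mul_left _ (Finset.card_le_card hsub)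
      _ ≤ _ := (hC _ (cyc_mem_cycs hv)).2.2.2
  · calc w * ((cycs H).biUnion C).card ≤ w * ∑ S ∈ cycs H, (C S).card :=
          Nat.mul_le_mul_left _ Finset.card_biUnion_le
      _ = ∑ S ∈ cycs H, w * (C S).card := Finset.mul_sum _ _ _
      _ ≤ ∑ S ∈ cycs H, 2 * S.card := Finset.sum_le_sum (fun S hS => (hC S hS).2.2.2)
      _ = 2 * ∑ S ∈ cycs H, S.card := (Finset.mul_sum _ _ _).symm
      _ = 2 * (cov H).card := by rw [mass V H]

end Pool.Agent.Lib.MP_688fd0_co.LIN.H43
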