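import Pool.Agent.Lib.MP_688fd0_co.LIN.Iface

/-! MASS: sizes of cycles add up. -/

set_option autoImplicit false

namespace Pool.Agent.Lib.MP_688fd0_co.LIN.H43

open Classical
open Pool.Agent.Lib.MP_688fd0_co.LP (IsP Conn Cyc Symm cay)
open Pool.Agent.Lib.MP_688fd0_co.LIN

universe u

section
variable {V : Type u} [Fintype V] {H : SimpleGraph V}

lemma mem_cov {v : V} : v ∈ cov H ↔ ∃ w, H.Adj v w := by simp [cov]

lemma mem_cyc {v w : V} : w ∈ cyc H v ↔ H.Reachable v w := by simp [cyc]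

lemma self_mem_cyc (v : V) : v ∈ cyc H v := mem_cyc.2 (SimpleGraph.Reachable.refl v)

lemma cyc_eq {v w : V} (h : H.Reachable v w) : cyc H v = cyc H w := by
  ext x
  rw [mem_cyc, mem_cyc]
  exact ⟨fun hx => h.symm.trans hx, fun hx => h.trans hx⟩

lemma cov_of_reachable {v w : V} (h : H.Reachable v w) (hv : v ∈ cov H) : w ∈ cov H := by
  by_cases e : v = w
  · rw [← e]; exact hv
  · obtain ⟨p⟩ := h.symm
    cases p with
    | nil => exact absurd rfl e
    | cons h' q => exact mem_cov.2 ⟨_, h'⟩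

lemma mem_cycs {S : Finset V} : S ∈ cycs H ↔ ∃ v ∈ cov H, cyc H v = S := by simp [cycs]

lemma cyc_mem_cycs {v : V} (hv : v ∈ cov H) : cyc H v ∈ cycs H := mem_cycs.2 ⟨v, hv, rfl⟩

lemma eq_cyc_of_mem {S : Finset V} (hS : S ∈ cycs H) {x : V} (hx : x ∈ S) : S = cyc H x ∧ x ∈ cov H := by
  obtain ⟨v, hv, rfl⟩ := mem_cycs.1 hS
  have hr := mem_cyc.1 hx
  exact ⟨cyc_eq hr, cov_of_reachable hr hv⟩

end

theorem mass : MassStatement.{u} := by
  intro V _ H
  rw [cycs, Finset.card_eq_sum_card_image (cyc H) (cov H)]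
  apply Finset.sum_congr rfl
  intro S hS
  have hS' : S ∈ cycs H := hS
  congr 1
  ext x
  simp only [Finset.mem_filter]
  constructor
  · intro hx
    have := eq_cyc_of_mem hS' hx
    exact ⟨this.2, this.1.symm⟩
  · rintro ⟨_, h2⟩
    rw [← h2]
    exact self_mem_cyc x

end Pool.Agent.Lib.MP_688fd0_co.LIN.H43
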